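import Pool.Agent.H121.GA.IfA
import Pool.Agent.H304.Z987.Green

/-! Project GA (MP_1906c1_mp), leaf GA-NEAR: small random perturbations of a bounded operator. -/

set_option autoImplicit false
set_option linter.unusedSectionVars false
set_option linter.unusedVariables false

open scoped BigOperators InnerProductSpace Topology ENNReal
open Filter MeasureTheory

namespace Pool.Agent.H196.GA

open Pool.Agent.Y662.TR
open Pool.Agent.TH369.AN (Rz rz_eq rz_uniq rz_norm)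
open Pool.Agent.H987.Z
open Pool.Agent.H121.GA (HW S_near)
open Pool.Agent.H304.Z987 (mul_summable' Gr_im Gr_le rz_sub')

variable {ι : Type}

theorem HW_rs (T : LL ι →L[ℂ] LL ι) (hT : Rs T) (b : ℝ) (V : ι → ℝ) : Rs (HW T b V) := by
  refine ⟨hT.sa.add (Mw_sa b V), fun u v => ?_⟩
  have h1 : ∀ x, HW T b V u x * v x = T u x * v x + Mw b V u x * v x := by
    intro x
    have : HW T b V u x = T u x + Mw b V u x := rfl
    rw [this]; ring
  have h2 : ∀ x, u x * HW T b V v x = u x * T v x + Mw b V u x * v x := by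
    intro x
    have : HW T b V v x = T v x + Mw b V v x := rfl
    rw [this, Mw_apply, Mw_apply]; ring
  rw [tsum_congr h1, tsum_congr h2,
    Summable.tsum_add (mul_summable' (T u) v) (mul_summable' (Mw b V u) v),
    Summable.tsum_add (mul_summable' u (T v)) (mul_summable' (Mw b V u) v), hT.bil u v]

theorem clp_le (b x : ℝ) : |clp b x| ≤ |x| := by
  have h := abs_nonneg b
  have h1 := neg_abs_le x
  have h2 := le_abs_self x
  unfold clp
  rw [abs_le]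
  constructor
  · rcases le_total 0 x with h0 | h0
    · refine le_max_of_le_right (le_min (by linarith) (by linarith))
    · rw [abs_of_nonpos h0]
      refine le_max_of_le_right (le_min (by linarith) (by linarith))
  · exact max_le (by linarith [abs_nonneg x]) ((min_le_right _ _).trans h2)

/-- the difference of the Green functions -/
theorem near_sub (T0 T : LL ι →L[ℂ] LL ι) (hT0 : Rs T0) (hT : Rs T) (V : ι → ℝ) (b : ℝ) (x : ι)
    (z : ℂ) {θ δ : ℝ} (hθ : 0 < θ) (hz : θ ≤ z.im) (hd : ‖T - T0‖ ≤ δ) :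
    ‖Gr (HW T b V) z x x - Gr T0 z x x‖ ≤
      1 / θ * (δ / θ + ‖Mw b V (Rz T0 z (dv x))‖) := by
  have hz0 : 0 < z.im := hθ.trans_le hz
  have hA := HW_rs T hT b V
  have h0 : Gr (HW T b V) z x x - Gr T0 z x x =
      (Rz (HW T b V) z (dv x) - Rz T0 z (dv x) : LL ι) x := rfl
  rw [h0]
  refine (ll_coord _ x).trans ?_
  rw [rz_sub' _ hA.sa T0 hT0.sa z hz0.ne']
  refine (rz_norm _ hA.sa z hz0.ne' _).trans ?_
  rw [abs_of_pos hz0, div_eq_inv_mul, ← one_div]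
  have h2 : ‖Rz T0 z (dv x)‖ ≤ 1 / θ := by
    have h := rz_norm _ hT0.sa z hz0.ne' (dv x)
    rw [norm_dv, abs_of_pos hz0] at h
    exact h.trans (one_div_le_one_div_of_le hθ hz)
  have h3 : T0 (Rz T0 z (dv x)) - HW T b V (Rz T0 z (dv x)) =
      (T0 - T) (Rz T0 z (dv x)) - Mw b V (Rz T0 z (dv x)) := by
    unfold HW
    rw [_root_.add_apply, _root_.sub_apply]
    abel
  have h4 : ‖(T0 - T) (Rz T0 z (dv x))‖ ≤ δ / θ := by
    refine ((T0 - T).le_opNorm _).trans ?_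
    rw [norm_sub_rev, div_eq_mul_one_div]
    exact mul_le_mul hd h2 (norm_nonneg _) ((norm_nonneg _).trans hd)
  rw [h3]
  refine mul_le_mul (one_div_le_one_div_of_le hθ hz)
    ((norm_sub_le _ _).trans (add_le_add h4 le_rfl)) (norm_nonneg _) (by positivity)

/-- the lower bound of the imaginary part of the Green function -/
theorem near_im (T : LL ι →L[ℂ] LL ι) (hT : Rs T) (V : ι → ℝ) (b : ℝ) (x : ι)
    (z : ℂ) {θ h : ℝ} (hθ : 0 < θ) (hz : θ ≤ z.im) (hh : ‖T‖ + ‖z‖ ≤ h) :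
    θ / (|V x| + h) ^ 2 ≤ (Gr (HW T b V) z x x).im := by
  have hz0 : 0 < z.im := hθ.trans_le hz
  have hA := HW_rs T hT b V
  rw [Gr_im _ hA z x hz0.ne']
  obtain ⟨u, hu⟩ : ∃ u, u = Rz (HW T b V) z (dv x) := ⟨_, rfl⟩
  have h1 := rz_eq _ hA.sa z hz0.ne' (dv x)
  rw [← hu] at h1 ⊢
  have hzn : 0 < ‖z‖ := hz0.trans_le (Complex.im_le_norm z)
  have hpos : 0 < |V x| + h := by
    have := norm_nonneg T
    have := abs_nonneg (V x)
    linarith
  have h2 : (1 : ℂ) = T u x + ((clp b (V x) : ℝ) : ℂ) * u x - z * u x := by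
    have h3 := congrArg (fun w : LL ι => w x) h1
    simp only [sub_coord, smul_coord] at h3
    rw [dv_self] at h3
    rw [← h3]
    rfl
  have h4 : 1 ≤ (|V x| + h) * ‖u‖ := by
    have h5 : ‖(1 : ℂ)‖ ≤ ‖T u x‖ + |V x| * ‖u‖ + ‖z‖ * ‖u‖ := by
      rw [h2]
      refine (norm_sub_le _ _).trans (add_le_add ((norm_add_le _ _).trans
        (add_le_add le_rfl ?_)) ?_)
      · rw [norm_mul, Complex.norm_real, Real.norm_eq_abs]
        exact mul_le_mul (clp_le b (V x)) (ll_coord u x) (norm_nonneg _) (abs_nonneg _)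
      · rw [norm_mul]
        exact mul_le_mul le_rfl (ll_coord u x) (norm_nonneg _) (norm_nonneg _)
    have h6 : ‖T u x‖ ≤ ‖T‖ * ‖u‖ := (ll_coord _ x).trans (T.le_opNorm u)
    rw [norm_one] at h5
    calc (1 : ℝ) ≤ ‖T u x‖ + |V x| * ‖u‖ + ‖z‖ * ‖u‖ := h5
      _ ≤ ‖T‖ * ‖u‖ + |V x| * ‖u‖ + ‖z‖ * ‖u‖ := by linarith
      _ = (|V x| + (‖T‖ + ‖z‖)) * ‖u‖ := by ring
      _ ≤ (|V x| + h) * ‖u‖ := by
          refine mul_le_mul_of_nonneg_right ?_ (norm_nonneg _)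
          linarith
  have h7 : 1 / (|V x| + h) ^ 2 ≤ ‖u‖ ^ 2 := by
    rw [div_le_iff₀ (by positivity)]
    calc (1 : ℝ) = 1 ^ 2 := by norm_num
      _ ≤ ((|V x| + h) * ‖u‖) ^ 2 := by gcongr
      _ = _ := by ring
  rw [div_eq_mul_one_div]
  exact mul_le_mul hz h7 (by positivity) hz0.le

/-- the norm of the potential times a vector -/
theorem near_pot (b : ℝ) (V : ι → ℝ) (u : LL ι) :
    ENNReal.ofReal (‖Mw b V u‖ ^ 2) ≤
      ∑' y, ENNReal.ofReal (V y ^ 2) * ENNReal.ofReal (‖u y‖ ^ 2) := by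
  rw [← (ll_sum (Mw b V u)).tsum_eq,
    ENNReal.ofReal_tsum_of_nonneg (fun y => by positivity) (ll_summable _)]
  refine ENNReal.tsum_le_tsum fun y => ?_
  rw [← ENNReal.ofReal_mul (by positivity)]
  refine ENNReal.ofReal_le_ofReal ?_
  rw [Mw_apply, norm_mul, mul_pow, Complex.norm_real, Real.norm_eq_abs]
  refine mul_le_mul_of_nonneg_right ?_ (by positivity)
  rw [← sq_abs (V y)]
  exact pow_le_pow_left₀ (abs_nonneg _) (clp_le b (V y)) 2

/-- the bound of `hu²` -/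
theorem hu_bound {G G0 : ℂ} {θ c W : ℝ} (hθ : 0 < θ) (hc : 0 < c) (hW : 0 < W)
    (h1 : θ / W ^ 2 ≤ G.im) (h2 : c ≤ G0.im) (h3 : ‖G - G0‖ ≤ 2 / θ) :
    hu G G0 ^ 2 ≤ (2 / θ) ^ 3 / (θ ^ 2 * c ^ 2) * (‖G - G0‖ * W ^ 4) := by
  have hG : 0 < G.im := lt_of_lt_of_le (by positivity) h1
  have hG0 : 0 < G0.im := hc.trans_le h2
  unfold hu
  rw [div_pow, ← pow_mul, show 2 * 2 = 4 by norm_num, mul_pow]
  have h4 : (θ / W ^ 2) ^ 2 * c ^ 2 ≤ G.im ^ 2 * G0.im ^ 2 := by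
    gcongr
  have h5 : ‖G - G0‖ ^ 4 ≤ (2 / θ) ^ 3 * ‖G - G0‖ := by
    calc ‖G - G0‖ ^ 4 = ‖G - G0‖ ^ 3 * ‖G - G0‖ := by ring
      _ ≤ (2 / θ) ^ 3 * ‖G - G0‖ := by gcongr
  calc ‖G - G0‖ ^ 4 / (G.im ^ 2 * G0.im ^ 2) ≤
        ((2 / θ) ^ 3 * ‖G - G0‖) / ((θ / W ^ 2) ^ 2 * c ^ 2) := by
        gcongr
    _ = (2 / θ) ^ 3 / (θ ^ 2 * c ^ 2) * (‖G - G0‖ * W ^ 4) := by
        field_simp

theorem pow8_le (v C : ℝ) (hC : 0 ≤ C) :
    ((|v| + C) ^ 4) ^ 2 ≤ 2 ^ 7 * (1 + C ^ 8) + 2 ^ 7 * v ^ 12 := by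
  have h1 := add_pow_le (abs_nonneg v) hC 8
  have h2 : |v| ^ 8 ≤ 1 + v ^ 12 := by
    have h3 : |v| ^ 8 = (v ^ 2) ^ 4 := by
      rw [← sq_abs, ← pow_mul]
    have h4 : v ^ 12 = (v ^ 2) ^ 6 := by rw [← pow_mul]
    rw [h3, h4]
    have h5 : 0 ≤ v ^ 2 := sq_nonneg v
    generalize v ^ 2 = t at h5
    rcases le_total t 1 with h | h
    · have h6 : t ^ 4 ≤ 1 := pow_le_one₀ h5 h
      have h7 : 0 ≤ t ^ 6 := by positivity
      linarith
    · have h6 : t ^ 4 ≤ t ^ 6 := pow_le_pow_right₀ h (by norm_num)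
      linarith
  calc ((|v| + C) ^ 4) ^ 2 = (|v| + C) ^ 8 := by rw [← pow_mul]
    _ ≤ 2 ^ (8 - 1) * (|v| ^ 8 + C ^ 8) := h1
    _ ≤ 2 ^ 7 * (1 + C ^ 8) + 2 ^ 7 * v ^ 12 := by
        norm_num
        linarith

/-- **GA-NEAR.** -/
theorem near : S_near := by
  intro θ η h0 ρ c hθ hη hh0 hρ hc
  obtain ⟨C, hC⟩ : ∃ C, C = h0 + ρ + 3 := ⟨_, rfl⟩
  obtain ⟨M, hM⟩ : ∃ M, M = (2 / θ) ^ 3 / (θ ^ 2 * c ^ 2) := ⟨_, rfl⟩
  obtain ⟨K, hK⟩ : ∃ K : ℝ, K = 2 ^ 7 * (2 + C ^ 8) := ⟨_, rfl⟩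
  obtain ⟨κ, hκ⟩ : ∃ κ, κ = η / (M * K) := ⟨_, rfl⟩
  obtain ⟨α, hα⟩ : ∃ α, α = M / (2 * κ) := ⟨_, rfl⟩
  have hC0 : 0 < C := by rw [hC]; positivity
  have hM0 : 0 < M := by rw [hM]; positivity
  have hK0 : 0 < K := by rw [hK]; positivity
  have hκ0 : 0 < κ := by rw [hκ]; positivity
  have hα0 : 0 < α := by rw [hα]; positivity
  refine ⟨min 1 (η * θ ^ 4 / (8 * α)), lt_min one_pos (by positivity), min_le_left _ _, ?_⟩
  obtain ⟨δ, hδ⟩ : ∃ δ, δ = min 1 (η * θ ^ 4 / (8 * α)) := ⟨_, rfl⟩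
  rw [← hδ]
  have hδ0 : 0 < δ := by rw [hδ]; exact lt_min one_pos (by positivity)
  have hδ1 : δ ≤ 1 := by rw [hδ]; exact min_le_left _ _
  have hδ2 : δ ≤ η * θ ^ 4 / (8 * α) := by rw [hδ]; exact min_le_right _ _
  intro ι Ω _ _ P _ T0 T V x b z hT0 hT0n hT hTd hGm hVm hV2 hV12 hb hz1 hz2 hz3 hG0
  have hz0 : 0 < z.im := hθ.trans_le hz2
  obtain ⟨u, hu⟩ : ∃ u, u = Rz T0 z (dv x) := ⟨_, rfl⟩
  have hun : ‖u‖ ≤ 1 / θ := by
    have h := rz_norm _ hT0.sa z hz0.ne' (dv x)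
    rw [norm_dv, abs_of_pos hz0, ← hu] at h
    exact h.trans (one_div_le_one_div_of_le hθ hz2)
  have hzn : ‖z‖ ≤ ρ + 2 := by
    refine (Complex.norm_le_abs_re_add_abs_im z).trans ?_
    rw [abs_of_pos hz0]
    linarith
  -- the constants
  obtain ⟨a1, ha1⟩ : ∃ a1, a1 = α * (2 / θ ^ 2 * (δ ^ 2 / θ ^ 2)) +
    M * κ / 2 * (2 ^ 7 * (1 + C ^ 8)) := ⟨_, rfl⟩
  obtain ⟨a2, ha2⟩ : ∃ a2, a2 = α * (2 / θ ^ 2) := ⟨_, rfl⟩
  obtain ⟨a3, ha3⟩ : ∃ a3, a3 = M * κ / 2 * 2 ^ 7 := ⟨_, rfl⟩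
  have ha10 : 0 ≤ a1 := by rw [ha1]; positivity
  have ha20 : 0 ≤ a2 := by rw [ha2]; positivity
  have ha30 : 0 ≤ a3 := by rw [ha3]; positivity
  -- the pointwise bound
  have hpt : ∀ ω, Pool.Agent.Y662.TR.hu (Gr (HW (T ω) b (V ω)) z x x) (Gr T0 z x x) ^ 2 ≤
      a1 + a2 * ‖Mw b (V ω) u‖ ^ 2 + a3 * V ω x ^ 12 := by
    intro ω
    have hA := HW_rs (T ω) (hT ω) b (V ω)
    obtain ⟨X, hX⟩ : ∃ X, X = ‖Gr (HW (T ω) b (V ω)) z x x - Gr T0 z x x‖ := ⟨_, rfl⟩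
    have e1 : X ≤ 1 / θ * (δ / θ + ‖Mw b (V ω) u‖) := by
      rw [hX, hu]
      exact near_sub T0 (T ω) hT0 (hT ω) (V ω) b x z hθ hz2 (hTd ω)
    have e2 : X ≤ 2 / θ := by
      rw [hX]
      have f1 := (Gr_le _ hA z x x hz0).trans (one_div_le_one_div_of_le hθ hz2)
      have f2 := (Gr_le _ hT0 z x x hz0).trans (one_div_le_one_div_of_le hθ hz2)
      refine (norm_sub_le _ _).trans ((add_le_add f1 f2).trans (le_of_eq ?_))
      ring
    have e3 : ‖T ω‖ + ‖z‖ ≤ C := by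
      have f1 : ‖T ω‖ ≤ ‖T ω - T0‖ + ‖T0‖ := by
        have := norm_add_le (T ω - T0) T0
        rwa [sub_add_cancel] at this
      have f2 := hTd ω
      rw [hC]
      linarith
    have e4 := near_im (T ω) (hT ω) (V ω) b x z hθ hz2 e3
    have hW : 0 < |V ω x| + C := by
      have := abs_nonneg (V ω x)
      linarith
    have e5 := hu_bound hθ hc hW e4 hG0 (by rw [← hX]; exact e2)
    rw [← hM, ← hX] at e5
    obtain ⟨Y, hY⟩ : ∃ Y, Y = (|V ω x| + C) ^ 4 := ⟨_, rfl⟩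
    rw [← hY] at e5
    have e6 : M * (X * Y) ≤ α * X ^ 2 + M * κ / 2 * Y ^ 2 := by
      have f1 : α * X ^ 2 + M * κ / 2 * Y ^ 2 - M * (X * Y) =
          M / (2 * κ) * (X - κ * Y) ^ 2 := by
        rw [hα]
        field_simp
        ring
      have f2 : 0 ≤ M / (2 * κ) * (X - κ * Y) ^ 2 := by positivity
      linarith
    have e7 : X ^ 2 ≤ 2 / θ ^ 2 * (δ ^ 2 / θ ^ 2) + 2 / θ ^ 2 * ‖Mw b (V ω) u‖ ^ 2 := by
      have hX0 : 0 ≤ X := by rw [hX]; exact norm_nonneg _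
      have f1 : X ^ 2 ≤ (1 / θ * (δ / θ + ‖Mw b (V ω) u‖)) ^ 2 := pow_le_pow_left₀ hX0 e1 2
      refine f1.trans ?_
      have f2 : (δ / θ + ‖Mw b (V ω) u‖) ^ 2 ≤ 2 * (δ / θ) ^ 2 + 2 * ‖Mw b (V ω) u‖ ^ 2 := by
        nlinarith [sq_nonneg (δ / θ - ‖Mw b (V ω) u‖)]
      calc (1 / θ * (δ / θ + ‖Mw b (V ω) u‖)) ^ 2 =
            (1 / θ ^ 2) * (δ / θ + ‖Mw b (V ω) u‖) ^ 2 := by ring
        _ ≤ (1 / θ ^ 2) * (2 * (δ / θ) ^ 2 + 2 * ‖Mw b (V ω) u‖ ^ 2) := by gcongr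
        _ = _ := by ring
    have e8 : Y ^ 2 ≤ 2 ^ 7 * (1 + C ^ 8) + 2 ^ 7 * V ω x ^ 12 := by
      rw [hY]
      exact pow8_le (V ω x) C hC0.le
    calc _ ≤ M * (X * Y) := e5
      _ ≤ α * X ^ 2 + M * κ / 2 * Y ^ 2 := e6
      _ ≤ α * (2 / θ ^ 2 * (δ ^ 2 / θ ^ 2) + 2 / θ ^ 2 * ‖Mw b (V ω) u‖ ^ 2) +
          M * κ / 2 * (2 ^ 7 * (1 + C ^ 8) + 2 ^ 7 * V ω x ^ 12) := by gcongr
      _ = a1 + a2 * ‖Mw b (V ω) u‖ ^ 2 + a3 * V ω x ^ 12 := by
          rw [ha1, ha2, ha3]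
          ring
  -- the mean of the potential term
  have hpot : ∫⁻ ω, ENNReal.ofReal (‖Mw b (V ω) u‖ ^ 2) ∂P ≤ ENNReal.ofReal (δ * (1 / θ) ^ 2) := by
    calc ∫⁻ ω, ENNReal.ofReal (‖Mw b (V ω) u‖ ^ 2) ∂P ≤
          ∫⁻ ω, ∑' y, ENNReal.ofReal (V ω y ^ 2) * ENNReal.ofReal (‖u y‖ ^ 2) ∂P :=
          lintegral_mono fun ω => near_pot b (V ω) u
      _ = ∑' y, ∫⁻ ω, ENNReal.ofReal (V ω y ^ 2) * ENNReal.ofReal (‖u y‖ ^ 2) ∂P := by
          refine lintegral_tsum fun y => ?_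
          exact ((((hVm y).pow_const 2).ennreal_ofReal).mul_const _).aemeasurable
      _ = ∑' y, (∫⁻ ω, ENNReal.ofReal (V ω y ^ 2) ∂P) * ENNReal.ofReal (‖u y‖ ^ 2) := by
          refine tsum_congr fun y => ?_
          exact lintegral_mul_const _ ((hVm y).pow_const 2).ennreal_ofReal
      _ ≤ ∑' y, ENNReal.ofReal δ * ENNReal.ofReal (‖u y‖ ^ 2) := by
          refine ENNReal.tsum_le_tsum fun y => ?_
          gcongr
          exact hV2 y
      _ = ENNReal.ofReal δ * ENNReal.ofReal (‖u‖ ^ 2) := by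
          rw [ENNReal.tsum_mul_left, ← (ll_sum u).tsum_eq,
            ENNReal.ofReal_tsum_of_nonneg (fun y => by positivity) (ll_summable _)]
      _ = ENNReal.ofReal (δ * ‖u‖ ^ 2) := by rw [ENNReal.ofReal_mul hδ0.le]
      _ ≤ ENNReal.ofReal (δ * (1 / θ) ^ 2) := by
          refine ENNReal.ofReal_le_ofReal ?_
          gcongr
  have hVxm : Measurable fun ω => ENNReal.ofReal (V ω x ^ 12) :=
    ((hVm x).pow_const 12).ennreal_ofReal
  -- the integral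
  have hint : ∫⁻ ω, ENNReal.ofReal
      (Pool.Agent.Y662.TR.hu (Gr (HW (T ω) b (V ω)) z x x) (Gr T0 z x x) ^ 2) ∂P ≤
      ENNReal.ofReal η := by
    calc _ ≤ ∫⁻ ω, (ENNReal.ofReal a1 + ENNReal.ofReal a2 *
          ENNReal.ofReal (‖Mw b (V ω) u‖ ^ 2) + ENNReal.ofReal a3 *
          ENNReal.ofReal (V ω x ^ 12)) ∂P := by
          refine lintegral_mono fun ω => ?_
          refine (ENNReal.ofReal_le_ofReal (hpt ω)).trans ?_
          rw [← ENNReal.ofReal_mul ha20, ← ENNReal.ofReal_mul ha30,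
            ← ENNReal.ofReal_add ha10 (by positivity),
            ← ENNReal.ofReal_add (by positivity)]
          have : V ω x ^ 12 = (V ω x ^ 6) ^ 2 := by rw [← pow_mul]
          rw [this]
          positivity
      _ = (∫⁻ ω, (ENNReal.ofReal a1 + ENNReal.ofReal a2 *
          ENNReal.ofReal (‖Mw b (V ω) u‖ ^ 2)) ∂P) + ENNReal.ofReal a3 *
          ∫⁻ ω, ENNReal.ofReal (V ω x ^ 12) ∂P := by
          rw [lintegral_add_right _ (hVxm.const_mul _), lintegral_const_mul _ hVxm]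
      _ = ENNReal.ofReal a1 + (∫⁻ ω, ENNReal.ofReal a2 *
          ENNReal.ofReal (‖Mw b (V ω) u‖ ^ 2) ∂P) + ENNReal.ofReal a3 *
          ∫⁻ ω, ENNReal.ofReal (V ω x ^ 12) ∂P := by
          rw [lintegral_add_left measurable_const, lintegral_const, measure_univ, mul_one]
      _ = ENNReal.ofReal a1 + ENNReal.ofReal a2 * (∫⁻ ω,
          ENNReal.ofReal (‖Mw b (V ω) u‖ ^ 2) ∂P) + ENNReal.ofReal a3 *
          ∫⁻ ω, ENNReal.ofReal (V ω x ^ 12) ∂P := by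
          rw [lintegral_const_mul' _ _ ENNReal.ofReal_ne_top]
      _ ≤ ENNReal.ofReal a1 + ENNReal.ofReal a2 * ENNReal.ofReal (δ * (1 / θ) ^ 2) +
          ENNReal.ofReal a3 * 1 := by
          gcongr
      _ = ENNReal.ofReal (a1 + a2 * (δ * (1 / θ) ^ 2) + a3) := by
          rw [mul_one, ENNReal.ofReal_add (by positivity) ha30,
            ENNReal.ofReal_add ha10 (by positivity), ENNReal.ofReal_mul ha20]
      _ ≤ ENNReal.ofReal η := by
          refine ENNReal.ofReal_le_ofReal ?_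
          have f1 : M * κ / 2 * K = η / 2 := by
            rw [hκ]
            field_simp
          have f2 : α * (4 * δ / θ ^ 4) ≤ η / 2 := by
            have f3 : α * (4 * δ / θ ^ 4) = (4 * α / θ ^ 4) * δ := by ring
            rw [f3]
            calc (4 * α / θ ^ 4) * δ ≤ (4 * α / θ ^ 4) * (η * θ ^ 4 / (8 * α)) := by gcongr
              _ = η / 2 := by
                  field_simp
                  norm_num
          have f4 : δ ^ 2 ≤ δ := by nlinarith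
          have f5 : α * (2 / θ ^ 2 * (δ ^ 2 / θ ^ 2)) + a2 * (δ * (1 / θ) ^ 2) ≤
              α * (4 * δ / θ ^ 4) := by
            rw [ha2]
            calc α * (2 / θ ^ 2 * (δ ^ 2 / θ ^ 2)) + α * (2 / θ ^ 2) * (δ * (1 / θ) ^ 2) ≤
                  α * (2 / θ ^ 2 * (δ / θ ^ 2)) + α * (2 / θ ^ 2) * (δ * (1 / θ) ^ 2) := by
                  gcongr
              _ = α * (4 * δ / θ ^ 4) := by ring
          have f6 : M * κ / 2 * (2 ^ 7 * (1 + C ^ 8)) + a3 = M * κ / 2 * K := by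
            rw [ha3, hK]
            ring
          rw [ha1]
          linarith
  -- conclusion
  have hmeas : Measurable fun ω => Pool.Agent.Y662.TR.hu (Gr (HW (T ω) b (V ω)) z x x)
      (Gr T0 z x x) ^ 2 := by
    unfold Pool.Agent.Y662.TR.hu
    exact (((hGm.sub measurable_const).norm.pow_const 2).div
      ((Complex.measurable_im.comp hGm).mul measurable_const)).pow_const 2
  rw [integral_eq_lintegral_of_nonneg_ae (Eventually.of_forall fun ω => sq_nonneg _)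
    hmeas.aestronglyMeasurable]
  exact ENNReal.toReal_le_of_le_ofReal hη.le hint

end Pool.Agent.H196.GA
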